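import Pool.Agent.FS49.Main

/-!
# The Radon number and the Hadwiger number of a graph are asymptotically equal

Definitions (HR54/Defs): `IsConvexity G 𝒞`, the convex hull `hull 𝒞 B`, the Radon property
`Radon 𝒞 p`, that is `(R_p)`, and `CliqueMinor G h` (`G` has `K_h` as a minor). Duchet and Meyniel
(1983) have `h ≤ p / 2 + 1`.
-/

set_option autoImplicit false

namespace Pool.Agent.Results.MP_93e89b_co.AsymptoticRadon

open Pool.Agent.HR54 Pool.Agent.FS49

/-- There is a constant `C` such that for every finite graph `G`, every convexity `𝒞` on `G` and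
all `p`, `h` with `h ≤ p - C p ^ (16/17)`: if `𝒞` fails `(R_p)`, then `K_h` is a minor of `G`. -/
theorem result : ∃ C : ℝ, ∀ (V : Type) [Finite V] (G : SimpleGraph V) (p : ℕ)
    (𝒞 : Set (Set V)), IsConvexity G 𝒞 → ¬ Radon 𝒞 p → ∀ h : ℕ,
      (h : ℝ) ≤ p - C * (p : ℝ) ^ (16 / 17 : ℝ) → CliqueMinor G h :=
  main_pow

end Pool.Agent.Results.MP_93e89b_co.AsymptoticRadon
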