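import Pool.Agent.HR54.Main

set_option autoImplicit false

namespace Pool.Agent.Results.MP_93e89b_co.ClawDeletion

open Pool.Agent.HR54

/-- Let `G` be a finite connected graph which becomes claw-free when a set `Z` of at most `k`
vertices is deleted, and `p ≥ 0`. If `G` has a `K_p` minor, some convexity on `G` fails `(R_p)`; if
some convexity on `G` fails `(R_{p+k})`, then `G` has a `K_p` minor. So for claw-free `G`
(`k = 0`) every convexity on `G` has `(R_p)` if and only if `G` has no `K_p` minor. -/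
theorem result (V : Type) [Finite V] (G : SimpleGraph V) (hG : G.Connected) (p k : ℕ)
    (Z : Set V) (hk : Z.ncard ≤ k) (hZ : ClawFree (G.induce (Zᶜ : Set V))) :
    (CliqueMinor G p → ∃ 𝒞 : Set (Set V), IsConvexity G 𝒞 ∧ ¬ Radon 𝒞 p) ∧
      ((∃ 𝒞 : Set (Set V), IsConvexity G 𝒞 ∧ ¬ Radon 𝒞 (p + k)) → CliqueMinor G p) :=
  radon_minor G hG p k Z hk hZ

end Pool.Agent.Results.MP_93e89b_co.ClawDeletion
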