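import Pool.Agent.OB31.Back

set_option autoImplicit false

namespace Pool.Agent.Results.MP_93e89b_co.ExactObstructions

open Pool.Agent.HR54 Pool.Agent.OB31

/-- Let `G` be a finite connected graph and `p ≥ 1`. Some convexity on `G` does not have the Radon
property `(R_p)` if and only if `G` has an obstruction of order `p` with at most `2 ^ 2 ^ p` vertices as
a minor. An obstruction of order `p` is a graph `K` whose vertices are labelled by pairwise incomparable
intersecting up-sets of subsets of `{1, ..., p}`, such that the `p` principal ones are labels and, for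
every family `𝒜` of subsets of `{1, ..., p}`, the vertices whose label contains `𝒜` induce a connected
(or empty) subgraph. -/
theorem result (V : Type) [Finite V] (G : SimpleGraph V) (hG : G.Connected) (p : ℕ)
    (hp : 1 ≤ p) : (∃ 𝒞 : Set (Set V), IsConvexity G 𝒞 ∧ ¬ Radon 𝒞 p) ↔
      ∃ n ≤ 2 ^ 2 ^ p, ∃ (K : SimpleGraph (Fin n)) (F : Fin n → Set (Finset (Fin p))),
        Obstruction p K F ∧ IsMinor K G :=
  main hp hG

end Pool.Agent.Results.MP_93e89b_co.ExactObstructions
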