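import Pool.Agent.SF49.Sharp

/-!
# Graph convexities on surfaces

Definitions. HR54/Defs: `IsConvexity G 𝒞`, `hull 𝒞 B` and the Radon property `Radon 𝒞 p`, that is `(R_p)`. SF49/Defs:
`CellMap`, `joins` and `EulerGenusLE G g` (`G` is a minor of the graph of a connected map of Euler genus at most `g`).
-/

set_option autoImplicit false

namespace Pool.Agent.Results.MP_93e89b_co.SurfaceRadon

open Pool.Agent.HR54 Pool.Agent.SF49

/-- On a surface of Euler genus `g` every graph convexity has `(R_p)` for every `p` above the Heawood number of the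
surface; `K_4`, `K_6` and `K_7` show that this is best possible for the sphere, the projective plane and the torus. -/
theorem result :
    (∀ (V : Type) [Finite V] (G : SimpleGraph V) (g p : ℕ), 5 ≤ p →
      6 * g < (p - 3) * (p - 4) → EulerGenusLE G g →
        ∀ 𝒞 : Set (Set V), IsConvexity G 𝒞 → Radon 𝒞 p) ∧
    ∀ x : ℕ × ℕ, x = (4, 0) ∨ x = (6, 1) ∨ x = (7, 2) →
      EulerGenusLE (⊤ : SimpleGraph (Fin x.1)) x.2 ∧ ∃ 𝒞 : Set (Set (Fin x.1)),
        IsConvexity (⊤ : SimpleGraph (Fin x.1)) 𝒞 ∧ ¬ Radon 𝒞 x.1 :=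
  ⟨fun _ _ _ _ _ hp hg hG _ h𝒞 => surface_radon hp hg hG h𝒞, sharp⟩

end Pool.Agent.Results.MP_93e89b_co.SurfaceRadon
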